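import Pool.Agent.N124.CU.Stm2

set_option autoImplicit false

/-!
# Project CU, subtask 2834: `S_pair`
-/

namespace Pool.Agent.N26.CU

open Filter Topology Pool.Agent.N124.CU

theorem tend5 (Φ : ℂ → ℂ → ℂ → ℂ → ℂ → ℂ)
    (hΦ : Continuous fun t : ℂ × ℂ × ℂ × ℂ × ℂ => Φ t.1 t.2.1 t.2.2.1 t.2.2.2.1 t.2.2.2.2)
    {A3 C3 A2 C2 : ℂ → ℂ} {a3 c3 a2 c2 : ℂ}
    (h1 : Tendsto A3 (𝓝[≠] 0) (𝓝 a3)) (h2 : Tendsto C3 (𝓝[≠] 0) (𝓝 c3))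
    (h3 : Tendsto A2 (𝓝[≠] 0) (𝓝 a2)) (h4 : Tendsto C2 (𝓝[≠] 0) (𝓝 c2))
    {F : ℂ → ℂ} (hF : ∀ s : ℂ, s ≠ 0 → F s = Φ s (A3 s) (C3 s) (A2 s) (C2 s)) :
    Tendsto F (𝓝[≠] 0) (𝓝 (Φ 0 a3 c3 a2 c2)) := by
  have h0 : Tendsto (fun s : ℂ => s) (𝓝[≠] 0) (𝓝 0) := nhdsWithin_le_nhds
  have h5 := h0.prodMk_nhds (h1.prodMk_nhds (h2.prodMk_nhds (h3.prodMk_nhds h4)))
  have h6 := (hΦ.tendsto (0, a3, c3, a2, c2)).comp h5
  refine h6.congr' ?_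
  filter_upwards [self_mem_nhdsWithin] with s hs
  exact (hF s hs).symm

/-- the six cases -/
theorem half (L2 L3 : Subfield ℂ) (q2 : QC L2) (q3 : QC L3) (g e2 e3 : ℂ) (g2 : g ∈ L2)
    (g3 : g ∈ L3) (e22 : e2 ∉ L2) (e32 : e3 ∈ L2) (e23 : e2 ∈ L3) (e33 : e3 ∉ L3)
    (k3 k2 : Kd) (hk : (k3 = .Z ∧ k2 = .Z) ∨ (k3 = .Z ∧ k2 = .F) ∨ (k3 = .Z ∧ k2 = .I) ∨
      (k3 = .F ∧ k2 = .F) ∨ (k3 = .F ∧ k2 = .I) ∨ (k3 = .I ∧ k2 = .I))
    (u3 v3 u2 v2 : ℂ → ℂ) (a3 c3 a2 c2 : ℂ)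
    (h3 : Ty k3 u3 v3 a3 c3) (h2 : Ty k2 u2 v2 a2 c2)
    (a32 : a3 ∈ L2) (c32 : c3 ∈ L2) (a22 : a2 ∈ L2) (c22 : c2 ∈ L2)
    (a33 : a3 ∈ L3) (c33 : c3 ∈ L3) (a23 : a2 ∈ L3) (c23 : c2 ∈ L3)
    (a30 : a3 ≠ 0) (c30 : c3 ≠ 0) (a20 : a2 ≠ 0) (c20 : c2 ≠ 0)
    (hII : k3 = .I → k2 = .I → c3 ≠ c2) :
    ∃ c : ℂ, c ≠ 0 ∧ Tendsto (fun s => s ^ nn k3 k2 * FF g e2 e3 (u3 s) (v3 s) (u2 s) (v2 s))
      (𝓝[≠] 0) (𝓝 c) := by
  rcases hk with ⟨rfl, rfl⟩ | ⟨rfl, rfl⟩ | ⟨rfl, rfl⟩ | ⟨rfl, rfl⟩ | ⟨rfl, rfl⟩ | ⟨rfl, rfl⟩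
  · -- ZZ
    refine ⟨_, ?_, tend5 (fun s A3 C3 A2 C2 => s * (g * (C2 * A3 - A2 * C3) ^ 2) -
      ((e2 + s * A2 * C2) * A3 - (e3 + s * A3 * C3) * A2) *
        ((e3 + s * A3 * C3) * C2 - (e2 + s * A2 * C2) * C3)) (by fun_prop) h3.1 h3.2 h2.1 h2.2 ?_⟩
    · intro h
      refine e22 (q2 (a3 * c3) (-(e3 * (a3 * c2 + a2 * c3))) (a2 * c2 * e3 ^ 2) e2
        (mul_mem a32 c32) (neg_mem (mul_mem e32 (add_mem (mul_mem a32 c22) (mul_mem a22 c32))))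
        (mul_mem (mul_mem a22 c22) (pow_mem e32 2)) (Or.inl (mul_ne_zero a30 c30)) ?_)
      linear_combination h
    · intro s hs
      simp only [nn, FF]
      rw [zpow_neg_one]
      field_simp
  · -- ZF
    refine ⟨_, ?_, tend5 (fun s A3 C3 A2 C2 => FF g e2 e3 (s * A3) C3 A2 C2)
      (by unfold FF; fun_prop) h3.1 h3.2 h2.1 h2.2 ?_⟩
    · intro h
      refine e33 (q3 (a2 * c2) (-(a2 * ((e2 + a2 * c2) * c3))) (g * a2 ^ 2 * c3 ^ 2) e3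
        (mul_mem a23 c23) (neg_mem (mul_mem a23 (mul_mem (add_mem e23 (mul_mem a23 c23)) c33)))
        (mul_mem (mul_mem g3 (pow_mem a23 2)) (pow_mem c33 2)) (Or.inl (mul_ne_zero a20 c20)) ?_)
      simp only [FF] at h
      linear_combination h
    · intro s hs
      simp only [nn, FF]
      rw [zpow_zero]
      field_simp
  · -- ZI
    refine ⟨_, ?_, tend5 (fun s A3 C3 A2 C2 => s * (g * (C2 * A3 - (1 + s * A2) * C3) ^ 2) -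
      (s * e2 * A3 + (1 + s * A2) * C2 * A3 - (e3 + s * A3 * C3) * (1 + s * A2)) *
        ((e3 + s * A3 * C3) * C2 - (s * e2 + (1 + s * A2) * C2) * C3)) (by fun_prop)
      h3.1 h3.2 h2.1 h2.2 ?_⟩
    · intro h
      refine e33 (q3 c2 (-(c2 * (c2 * a3 + c3))) (c2 * a3 * c2 * c3) e3
        c23 (neg_mem (mul_mem c23 (add_mem (mul_mem c23 a33) c33)))
        (mul_mem (mul_mem (mul_mem c23 a33) c23) c33) (Or.inl c20) ?_)
      linear_combination h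
    · intro s hs
      simp only [nn, FF]
      rw [zpow_one]
      field_simp
      ring
  · -- FF
    refine ⟨_, ?_, tend5 (fun s A3 C3 A2 C2 => FF g e2 e3 A3 C3 A2 C2)
      (by unfold FF; fun_prop) h3.1 h3.2 h2.1 h2.2 ?_⟩
    · intro h
      refine e22 (q2 (a3 * c3) (-((e3 + a3 * c3) * a2 * c3) - a3 * (e3 + a3 * c3) * c2 +
        2 * (a3 * c3) * (a2 * c2))
        (g * (c2 * a3 - a2 * c3) ^ 2 - (a2 * c2 * a3 - (e3 + a3 * c3) * a2) *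
          ((e3 + a3 * c3) * c2 - a2 * c2 * c3)) e2
        (mul_mem a32 c32) ?_ ?_ (Or.inl (mul_ne_zero a30 c30)) ?_)
      · have h2' : (2 : ℂ) ∈ L2 := by exact_mod_cast natCast_mem L2 2
        have hE : e3 + a3 * c3 ∈ L2 := add_mem e32 (mul_mem a32 c32)
        exact add_mem (sub_mem (neg_mem (mul_mem (mul_mem hE a22) c32))
          (mul_mem (mul_mem a32 hE) c22)) (mul_mem (mul_mem h2' (mul_mem a32 c32))
            (mul_mem a22 c22))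
      · have hE : e3 + a3 * c3 ∈ L2 := add_mem e32 (mul_mem a32 c32)
        exact sub_mem (mul_mem g2 (pow_mem (sub_mem (mul_mem c22 a32) (mul_mem a22 c32)) 2))
          (mul_mem (sub_mem (mul_mem (mul_mem a22 c22) a32) (mul_mem hE a22))
            (sub_mem (mul_mem hE c22) (mul_mem (mul_mem a22 c22) c32)))
      · simp only [FF] at h
        linear_combination h
    · intro s hs
      simp only [nn, FF]
      rw [zpow_zero, one_mul]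
  · -- FI
    refine ⟨_, ?_, tend5 (fun s A3 C3 A2 C2 => (g * (C2 * A3 - s * (1 + s * A2) * C3) ^ 2) -
      (s * e2 * A3 + (1 + s * A2) * C2 * A3 - s * (e3 + A3 * C3) * (1 + s * A2)) *
        ((e3 + A3 * C3) * C2 - (s * e2 + (1 + s * A2) * C2) * C3)) (by fun_prop)
      h3.1 h3.2 h2.1 h2.2 ?_⟩
    · intro h
      refine e33 (q3 0 (-(c2 ^ 2 * a3)) (c2 ^ 2 * a3 * (g * a3 - a3 * c3 + c3)) e3
        (zero_mem _) (neg_mem (mul_mem (pow_mem c23 2) a33))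
        (mul_mem (mul_mem (pow_mem c23 2) a33) (add_mem (sub_mem (mul_mem g3 a33)
          (mul_mem a33 c33)) c33))
        (Or.inr (Or.inl (neg_ne_zero.mpr (mul_ne_zero (pow_ne_zero 2 c20) a30)))) ?_)
      linear_combination h
    · intro s hs
      simp only [nn, FF]
      rw [show (2 : ℤ) = ((2 : ℕ) : ℤ) from rfl, zpow_natCast]
      field_simp
      ring
  · -- II
    have hc := sub_ne_zero.mpr (Ne.symm (hII rfl rfl))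
    refine ⟨_, ?_, tend5 (fun s A3 C3 A2 C2 =>
      (g * (C2 * (1 + s * A3) - (1 + s * A2) * C3) ^ 2) -
      (s * e2 * (1 + s * A3) + (1 + s * A2) * C2 * (1 + s * A3) - s * e3 * (1 + s * A2) -
        (1 + s * A3) * C3 * (1 + s * A2)) *
        (e3 * C2 - e2 * C3 + C2 * C3 * (A3 - A2))) (by fun_prop)
      h3.1 h3.2 h2.1 h2.2 ?_⟩
    · intro h
      refine e22 (q2 0 ((c2 - c3) * c3) ((c2 - c3) * (g * (c2 - c3) - e3 * c2 -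
        c2 * c3 * (a3 - a2))) e2
        (zero_mem _) (mul_mem (sub_mem c22 c32) c32)
        (mul_mem (sub_mem c22 c32) (sub_mem (sub_mem (mul_mem g2 (sub_mem c22 c32))
          (mul_mem e32 c22)) (mul_mem (mul_mem c22 c32) (sub_mem a32 a22))))
        (Or.inr (Or.inl (mul_ne_zero hc c30))) ?_)
      linear_combination h
    · intro s hs
      simp only [nn, FF]
      rw [show (2 : ℤ) = ((2 : ℕ) : ℤ) from rfl, zpow_natCast]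
      field_simp
      ring

theorem FF_symm (g e2 e3 u3 v3 u2 v2 : ℂ) : FF g e2 e3 u3 v3 u2 v2 = FF g e3 e2 u2 v2 u3 v3 := by
  unfold FF; ring

theorem nn_symm (k l : Kd) : nn k l = nn l k := by cases k <;> cases l <;> rfl

theorem t_pair : Pool.Agent.N124.CU.S_pair := by
  intro L2 L3 q2 q3 g e2 e3 g2 g3 e22 e32 e23 e33 k3 k2 u3 v3 u2 v2 a3 c3 a2 c2 h3 h2
    a32 c32 a22 c22 a33 c33 a23 c23 a30 c30 a20 c20 hII
  by_cases hk : (k3 = .Z ∧ k2 = .Z) ∨ (k3 = .Z ∧ k2 = .F) ∨ (k3 = .Z ∧ k2 = .I) ∨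
      (k3 = .F ∧ k2 = .F) ∨ (k3 = .F ∧ k2 = .I) ∨ (k3 = .I ∧ k2 = .I)
  · exact half L2 L3 q2 q3 g e2 e3 g2 g3 e22 e32 e23 e33 k3 k2 hk u3 v3 u2 v2 a3 c3 a2 c2 h3 h2
      a32 c32 a22 c22 a33 c33 a23 c23 a30 c30 a20 c20 hII
  · have hk' : (k2 = .Z ∧ k3 = .Z) ∨ (k2 = .Z ∧ k3 = .F) ∨ (k2 = .Z ∧ k3 = .I) ∨
      (k2 = .F ∧ k3 = .F) ∨ (k2 = .F ∧ k3 = .I) ∨ (k2 = .I ∧ k3 = .I) := by
      cases k3 <;> cases k2 <;> simp_all
    have := half L3 L2 q3 q2 g e3 e2 g3 g2 e33 e23 e32 e22 k2 k3 hk' u2 v2 u3 v3 a2 c2 a3 c3 h2 h3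
      a23 c23 a33 c33 a22 c22 a32 c32 a20 c20 a30 c30 (fun h1 h2 => (hII h2 h1).symm)
    simpa only [FF_symm g e2 e3, nn_symm k3 k2] using this

end Pool.Agent.N26.CU
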